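import Mathlib
import Pool.Agent.W629.Tw.LFin

/-!
# Two generators decide local finiteness for the exponent 12

Proof in outline.  Let `G` have exponent dividing `12` and finite two-generator subgroups, and write
`O_2`, `O_3` for the largest normal subgroups of exponent `4` and `3`.  Both are locally finite, so
modulo the locally finite radical one may assume that they are trivial, and it has to be shown that
`G` is trivial.

First `G` has no subgroup isomorphic to the alternating group of degree four.  If there is one, an
involution `e` of its four-group inverts an element of order three, as `e` is not in `O_2`.  Three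
involutions generate a finite group, and in such groups one finds a second alternating subgroup with
an involution `b` acting on it as in the symmetric group of degree four, and then a finite group `F`
with elements `s`, `g` of orders three and four such that `g ^ 2` inverts `s`, the image of `s` lies
in `O_3(F / O_2(F))` and `s` does not centralise `O_2(F)`.  A computation in the `2`-sections of `F`,
which uses that `O_2(G)` is trivial, shows that this is impossible.

Next, in the absence of alternating subgroups of degree four, elements of order three inverted by a
`2`-element lie in `O_3` of each finite subgroup.  With this one shows that the elements inverted by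
an involution `a` form an abelian group, and by induction over finite `2`-subgroups that they lie in
`O_3(G)`; so there are none, all involutions lie in `O_2(G)`, there are no involutions and
`G = O_3(G)` is trivial.
-/

set_option autoImplicit false

namespace Pool.Agent.Results.MP_544bd1_al.TwoGeneratorsTwelve

universe u

/-- `n ∈ 𝓛`: every group satisfying `x ^ n = 1` is locally finite. -/
def InL (n : ℕ) : Prop := ∀ (G : Type u) [Group G], (∀ x : G, x ^ n = 1) →
  ∀ S : Set G, S.Finite → Finite (Subgroup.closure S)

/-- The free Burnside group `B_{m,n}`: the free group of rank `m` modulo the normal closure of all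
`n`-th powers. -/
abbrev B (m n : ℕ) : Type :=
  FreeGroup (Fin m) ⧸ Subgroup.normalClosure (Set.range fun w : FreeGroup (Fin m) => w ^ n)

/-- (1) `12 ∈ 𝓛` if and only if the two-generator free Burnside group `B_{2,12}` is finite.
(2) Every group satisfying `x ^ 12 = 1` all of whose two-generator subgroups are finite is locally
finite. -/
theorem result :
    (InL.{u} 12 ↔ Finite (B 2 12)) ∧
    (∀ (G : Type u) [Group G], (∀ x : G, x ^ 12 = 1) →
      (∀ x y : G, Finite (Subgroup.closure {x, y})) →
      ∀ S : Set G, S.Finite → Finite (Subgroup.closure S)) := by
  have hi : ∀ n, InL.{u} n ↔ Pool.Agent.H32BU.LocFin n := fun n =>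
    Pool.Agent.H32BU.inL_iff Pool.Agent.H32BU.x_LFD n
  constructor
  · rw [hi]
    constructor
    · intro h
      exact Pool.Agent.H32BU.x_LFD.2.1 _ 2 h
    · intro h G _ hG
      have hs : Group.IsSolvable (B 2 12) :=
        Pool.Agent.W629.solv_of_exp 2 3 2 1 Nat.prime_two Nat.prime_three
          (Pool.Agent.H32BU.x_LFD.2.2.2 2 12)
      exact Pool.Agent.W629.Tw.lf_twelve G
        (fun x y => (Pool.Agent.W629.two_of_bu h hs hG x y).1) hG
  · intro G _ hG hB S hS
    refine Pool.Agent.W629.finite_closure_u S hS fun Q _ f hf => ?_
    refine Pool.Agent.W629.Tw.lf_twelve Q (fun x y => ?_) (fun x => hf ?_)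
    · refine Pool.Agent.W629.finite_of_image f hf _ ?_
      rw [Set.image_pair]
      exact hB _ _
    · rw [map_pow, map_one]
      exact hG _

end Pool.Agent.Results.MP_544bd1_al.TwoGeneratorsTwelve
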