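import Mathlib
import Pool.Agent.W629.TwiceLF

/-!
# Two generators decide local finiteness for the exponents `2 p ^ k`

Proof in outline.  Let `G` have exponent dividing `2 m`, `m` odd.  The set `R` of the elements `e`
with `e ^ m = 1` such that `(e z) ^ m = 1` whenever `z ^ m = 1` is a normal subgroup.  Let `a, b` be
involutions and `u = (a b) ^ 2`.  If `u` is not in `R` there is `y` with `y ^ m = 1` and
`(u y) ^ m ≠ 1`, and the finite soluble group `⟨u, y⟩` has an involution `t` such that
`[t, u] ^ m ≠ 1` (Hall-Higman).  The group `⟨a, b, t⟩` has the subgroup `⟨a b, b t⟩` of index at most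
two, so it is finite and soluble; modulo its normal subgroup `R` its involutions commute, so `u`, and
then `[t, u]`, has order dividing `m`, a contradiction.  So the involutions of `G / R` commute, and
`G` is an extension of a group of exponent dividing `m` by an elementary abelian `2`-group by a group
of exponent dividing `m`.
-/

set_option autoImplicit false

namespace Pool.Agent.Results.MP_544bd1_al.TwoGeneratorsTwicePrimePower

universe u

/-- `n ∈ 𝓛`: every group satisfying `x ^ n = 1` is locally finite. -/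
def InL (n : ℕ) : Prop := ∀ (G : Type u) [Group G], (∀ x : G, x ^ n = 1) →
  ∀ S : Set G, S.Finite → Finite (Subgroup.closure S)

/-- The free Burnside group `B_{m,n}`: the free group of rank `m` modulo the normal closure of all
`n`-th powers. -/
abbrev B (m n : ℕ) : Type :=
  FreeGroup (Fin m) ⧸ Subgroup.normalClosure (Set.range fun w : FreeGroup (Fin m) => w ^ n)

/-- (1) For an odd prime `p` and `k ≥ 0`, `2 p ^ k ∈ 𝓛` if and only if `p ^ k ∈ 𝓛` and the
two-generator free Burnside group `B_{2,2 p ^ k}` is finite.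
(2) If `m` is odd, `m ∈ 𝓛` and `B_{2,2m}` is finite and soluble, then `2 m ∈ 𝓛`.
(3) Let `p` be an odd prime and `p ^ k ∈ 𝓛`, and let `G` be a group of exponent dividing `2 p ^ k`
in which all subgroups `⟨x, y⟩` with `x ^ p ^ k = y ^ p ^ k = 1` and all subgroups generated by three
elements with trivial square are finite. Then `G` is locally finite. -/
theorem result :
    (∀ p k : ℕ, p.Prime → p ≠ 2 →
      (InL.{u} (2 * p ^ k) ↔ InL.{u} (p ^ k) ∧ Finite (B 2 (2 * p ^ k)))) ∧
    (∀ m : ℕ, Odd m → InL.{u} m → Finite (B 2 (2 * m)) → Group.IsSolvable (B 2 (2 * m)) →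
      InL.{u} (2 * m)) ∧
    (∀ p k : ℕ, p.Prime → p ≠ 2 → InL.{u} (p ^ k) →
      ∀ (G : Type u) [Group G], (∀ x : G, x ^ (2 * p ^ k) = 1) →
        (∀ x y : G, x ^ p ^ k = 1 → y ^ p ^ k = 1 → Finite (Subgroup.closure {x, y})) →
        (∀ a b c : G, a ^ 2 = 1 → b ^ 2 = 1 → c ^ 2 = 1 → Finite (Subgroup.closure {a, b, c})) →
        ∀ S : Set G, S.Finite → Finite (Subgroup.closure S)) := by
  have hi : ∀ n, InL.{u} n ↔ Pool.Agent.H32BU.LocFin n := fun n =>
    Pool.Agent.H32BU.inL_iff Pool.Agent.H32BU.x_LFD n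
  refine ⟨fun p k hp hp2 => ?_, fun m hm h hf hs => ?_, fun p k hp hp2 h G _ hG h2 h3 S hS =>
    Pool.Agent.W629.group_twice_pp hp hp2 h G hG h2 h3 S hS⟩
  · rw [hi, hi]
    constructor
    · intro h
      exact ⟨Pool.Agent.H32BU.x_LFD.1 _ _ (dvd_mul_left _ _) h,
        Pool.Agent.H32BU.x_LFD.2.1 _ 2 h⟩
    · rintro ⟨h1, h2⟩
      exact Pool.Agent.W629.locfin_twice_pp hp hp2 h1 h2
  · rw [hi] at h ⊢
    rw [mul_comm] at hf hs ⊢
    exact Pool.Agent.W629.locfin_twice (Nat.coprime_two_right.2 hm) h hf hs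

end Pool.Agent.Results.MP_544bd1_al.TwoGeneratorsTwicePrimePower
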